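import Pool.Agent.TH299.LV.K8

/-!
# A localised Ingham inequality for `M` and `L`

Let `M(x) = ∑_{n ≤ x} μ(n)`, `L(x) = ∑_{n ≤ x} λ(n)`, `U(x) = L(x) - √x / ζ(1/2)`, and for real
`a`, `b`, `T > 0` and `τ` let

`A(τ) = ∑_{|γ| < T} (1 - |γ|/T) (a + b ζ(2ρ)) / (ρ ζ'(ρ)) e^{iγτ}`, `ρ = 1/2 + iγ`,

the Fejér mean over the zeros of `ζ` on the critical line with ordinate `|γ| < T` (multiple zeros, if
there are any, are left out). Ingham's method (1942), the basis of the disproof of the Mertens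
conjecture, shows that `liminf (aM + bU)(x)/√x ≤ A(τ) ≤ limsup (aM + bU)(x)/√x`. Here it is shown
that these extreme values are already reached in every window `[x, C x log x]`: for every `ε > 0` there
is `C` such that for all large `x`, both signs `s` and all real `τ` some `y` in `[x, C x log x]` satisfies
`s (a M(y) + b U(y)) ≥ (s A(τ) - ε) √y`. The cases `b = 0` (`M`) and `a = 0` (`U`) are unconditional;
for a genuine combination the condition is that `a + b ζ(2ρ) ≠ 0` at the multiple zeros with `|γ| < T`.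
-/

open Filter Topology MeasureTheory

namespace Pool.Agent.Results.MP_a499ba_nt.InghamWindows

/-- the Mertens function `M(x)` -/
noncomputable def M (x : ℝ) : ℝ := ∑ n ∈ Finset.Icc 1 ⌊x⌋₊, ((ArithmeticFunction.moebius n : ℤ) : ℝ)

/-- the summatory Liouville function `L(x)` -/
noncomputable def L (x : ℝ) : ℝ := ∑ n ∈ Finset.Icc 1 ⌊x⌋₊, (-1 : ℝ) ^ (ArithmeticFunction.cardFactors n)

/-- `U(x) = L(x) - √x / ζ(1/2)` (`ζ(1/2)` is real) -/
noncomputable def U (x : ℝ) : ℝ := L x - Real.sqrt x / (riemannZeta (1 / 2)).re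

/-- the point `1/2 + iγ` -/
noncomputable def pt (γ : ℝ) : ℂ := 1 / 2 + γ * Complex.I

/-- the ordinates of the zeros on the critical line below height `T` -/
def Z (T : ℝ) : Set ℝ := {γ : ℝ | |γ| < T ∧ riemannZeta (pt γ) = 0}

/-- the Fejér mean `A(τ)`; a multiple zero contributes `0` (division by zero) -/
noncomputable def A (a b T τ : ℝ) : ℝ :=
  (∑ᶠ γ ∈ Z T, ((1 - |γ| / T : ℝ) : ℂ) *
    ((a + b * riemannZeta (2 * pt γ)) / (pt γ * deriv riemannZeta (pt γ))) * Complex.exp (γ * Complex.I * τ)).re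

theorem SS_eq (a b y : ℝ) (hy : 1 ≤ y) : TH299.LV.SS a b y = a * M y + b * U y := by
  unfold TH299.LV.SS U TH299.LV.EE
  rw [if_pos hy]
  rfl

theorem A_eq (a b T τ : ℝ) (hT : 0 < T) : A a b T τ =
    (∑ ω ∈ (TH299.LV.ZT_finite T).toFinset, (TH299.LV.tri T ω : ℂ) * TH299.LV.kap a b ω * Complex.exp (ω * Complex.I * τ)).re := by
  unfold A
  have h : Z T = TH299.LV.ZT T := rfl
  rw [h, finsum_mem_eq_finite_toFinset_sum _ (TH299.LV.ZT_finite T)]
  congr 1
  refine Finset.sum_congr rfl fun ω hω => ?_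
  rw [Set.Finite.mem_toFinset] at hω
  rw [TH299.LV.tri_in T ω hT hω.1]
  unfold TH299.LV.kap
  rw [if_pos hω.2]
  rfl

/-- **Main theorem.** -/
theorem result (a b T ε : ℝ) (hT : 0 < T) (hε : 0 < ε)
    (h : (a ≠ 0 ∧ b = 0) ∨ (a = 0 ∧ b ≠ 0) ∨
      ∀ γ ∈ Z T, deriv riemannZeta (pt γ) = 0 → (a : ℂ) + b * riemannZeta (2 * pt γ) ≠ 0) :
    ∃ C : ℝ, 0 < C ∧ ∀ᶠ x : ℝ in atTop, ∀ s : ℝ, s = 1 ∨ s = -1 → ∀ τ : ℝ,
      ∃ y ∈ Set.Icc x (C * (x * Real.log x)), (s * A a b T τ - ε) * Real.sqrt y ≤ s * (a * M y + b * U y) := by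
  have e1 := Real.add_one_le_exp (1:ℝ)
  by_cases hs : ∀ ω ∈ TH299.LV.ZT T, deriv riemannZeta (TH299.LV.sg ω) ≠ 0
  · obtain ⟨C, hC, hev⟩ := TH299.LV.fejer a b T hT hs ε hε
    refine ⟨C, hC, ?_⟩
    filter_upwards [hev, eventually_ge_atTop 1] with x hx hx1 s hs2 τ
    obtain ⟨y, hy, hy2⟩ := hx s hs2 τ
    refine ⟨y, hy, ?_⟩
    rw [A_eq a b T τ hT, ← SS_eq a b y (hx1.trans hy.1)]
    exact hy2
  · push Not at hs
    obtain ⟨ω, hω, hd⟩ := hs
    have hre := TH299.LV.sg_re ω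
    have hne : (a : ℂ) + b * riemannZeta (2 * pt ω) ≠ 0 := by
      rcases h with ⟨ha, hb⟩ | ⟨ha, hb⟩ | h
      · rw [hb, Complex.ofReal_zero, zero_mul, add_zero]
        exact_mod_cast ha
      · rw [ha, Complex.ofReal_zero, zero_add]
        refine mul_ne_zero (by exact_mod_cast hb) (riemannZeta_ne_zero_of_one_le_re ?_)
        have h1 : (pt ω).re = 1 / 2 := hre
        simp [h1]
      · exact h ω hω hd
    obtain ⟨c, hc, hev⟩ := TH299.LV.signsC2 a b (TH299.LV.sg ω) hω.2 hd (by rw [hre]) (by rw [hre]; norm_num) hne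
    set S1 : ℝ := ∑ ω ∈ (TH299.LV.ZT_finite T).toFinset, ‖(TH299.LV.tri T ω : ℂ) * TH299.LV.kap a b ω‖ with hS1
    have hS10 : 0 ≤ S1 := Finset.sum_nonneg fun ω _ => norm_nonneg _
    have hAle : ∀ τ, |A a b T τ| ≤ S1 := by
      intro τ
      rw [A_eq a b T τ hT]
      refine (Complex.abs_re_le_norm _).trans ((norm_sum_le _ _).trans (Finset.sum_le_sum fun ω _ => ?_))
      have : ‖Complex.exp (ω * Complex.I * (τ : ℂ))‖ = 1 := by
        rw [show (ω : ℂ) * Complex.I * (τ : ℂ) = ((ω * τ : ℝ) : ℂ) * Complex.I by push_cast; ring]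
        exact Complex.norm_exp_ofReal_mul_I _
      rw [norm_mul, this, mul_one]
    refine ⟨1, one_pos, ?_⟩
    filter_upwards [hev, eventually_ge_atTop (Real.exp 1), Real.tendsto_log_atTop.eventually_ge_atTop (S1 / c)]
      with x hx hx1 hx2 s hs2 τ
    have hx0 : 0 < x := (Real.exp_pos 1).trans_le hx1
    obtain ⟨y, hy, hy2⟩ := hx s hs2
    refine ⟨y, ⟨hy.1, by rw [one_mul]; exact hy.2⟩, ?_⟩
    have hy1 : 1 ≤ y := by linarith [hy.1]
    rw [SS_eq a b y hy1, hre, ← Real.sqrt_eq_rpow] at hy2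
    refine le_trans ?_ hy2
    have hsq := Real.sqrt_nonneg y
    have hly : Real.log x ≤ Real.log y := Real.log_le_log hx0 hy.1
    have h3 : S1 ≤ c * Real.log y := by
      rw [div_le_iff₀ hc] at hx2
      nlinarith
    have h4 : s * A a b T τ ≤ S1 := by
      have h5 : |s * A a b T τ| ≤ S1 := by
        rw [abs_mul]
        have : |s| = 1 := by rcases hs2 with h | h <;> rw [h] <;> simp
        rw [this, one_mul]
        exact hAle τ
      exact (le_abs_self _).trans h5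
    calc (s * A a b T τ - ε) * Real.sqrt y ≤ (c * Real.log y) * Real.sqrt y :=
          mul_le_mul_of_nonneg_right (by linarith) hsq
      _ = c * (Real.sqrt y * Real.log y) := by ring

end Pool.Agent.Results.MP_a499ba_nt.InghamWindows
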