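import Pool.Agent.TH299.LV.C

/-!
# Both signs of `L(x) - √x/ζ(1/2)` in every window `[x, x log x]`

Let `M(x) = ∑_{n ≤ x} μ(n)`, `L(x) = ∑_{n ≤ x} λ(n)` and `U(x) = L(x) - √x / ζ(1/2)` (the term
`√x / ζ(1/2)` is the contribution of the pole of `ζ(2s)` to `L(x)`), and let `a`, `b` be real.

* If `ρ` is a zero of `ζ` with `1/2 ≤ Re ρ < 1` and `a + b ζ(2ρ) ≠ 0`, then every window
  `[x, x log x]` with `x` large contains points `y` where `a M(y) + b U(y)` is at least
  `c y^(Re ρ)` and points where it is at most `- c y^(Re ρ)`; the mean squares of the positive and of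
  the negative part over the window have the corresponding size. If `ρ` is a multiple zero there is an
  additional factor `log y`.
* Unconditionally, for `U`: both signs of size `c √y` in every window `[x, x log x]`.
* If just one of the two parts of `U` is small on an unbounded (arbitrarily sparse) set of windows
  (pointwise `≤ ε √y log y` on the window, or in mean square `≤ ε (log x)²`) then the Riemann Hypothesis
  holds and all nontrivial zeros are simple.
-/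

open Filter Topology MeasureTheory

namespace Pool.Agent.Results.MP_a499ba_nt.LiouvilleWindows

/-- the Mertens function `M(x)` -/
noncomputable def M (x : ℝ) : ℝ := ∑ n ∈ Finset.Icc 1 ⌊x⌋₊, ((ArithmeticFunction.moebius n : ℤ) : ℝ)

/-- the summatory Liouville function `L(x)` -/
noncomputable def L (x : ℝ) : ℝ := ∑ n ∈ Finset.Icc 1 ⌊x⌋₊, (-1 : ℝ) ^ (ArithmeticFunction.cardFactors n)

/-- `U(x) = L(x) - √x / ζ(1/2)` (`ζ(1/2)` is real) -/
noncomputable def U (x : ℝ) : ℝ := L x - Real.sqrt x / (riemannZeta (1 / 2)).re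

/-- `∫_x^{x log x} (max(s f(y), 0)/y)² dy`, the mean square of the positive (`s = 1`) or negative
(`s = -1`) part of `f` on the window -/
noncomputable def meanSq (f : ℝ → ℝ) (s x : ℝ) : ℝ := ∫ y in x..(x * Real.log x), (max (s * f y) 0 / y) ^ 2

theorem SS_eq (a b y : ℝ) (hy : 1 ≤ y) : TH299.LV.SS a b y = a * M y + b * U y := by
  unfold TH299.LV.SS U TH299.LV.EE
  rw [if_pos hy]
  rfl

theorem meanSq_eq (a b s x : ℝ) (hx : Real.exp 1 ≤ x) :
    ∫ y in x..(x * Real.log x), (max (s * TH299.LV.SS a b y) 0 / y) ^ 2 =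
      meanSq (fun y => a * M y + b * U y) s x := by
  unfold meanSq
  have hx0 : 0 < x := (Real.exp_pos 1).trans_le hx
  have hx1 : 1 ≤ x := (by
    have := Real.add_one_le_exp (1:ℝ)
    linarith)
  have hl1 : 1 ≤ Real.log x := by rwa [Real.le_log_iff_exp_le hx0]
  refine intervalIntegral.integral_congr fun y hy => ?_
  rw [Set.uIcc_of_le (le_mul_of_one_le_right hx0.le hl1)] at hy
  simp only
  rw [SS_eq a b y (hx1.trans hy.1)]

theorem ne_of_re {ρ : ℂ} (h0 : 1 / 2 ≤ ρ.re) : ((0:ℝ) : ℂ) + ((1:ℝ) : ℂ) * riemannZeta (2 * ρ) ≠ 0 := by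
  rw [Complex.ofReal_zero, Complex.ofReal_one, zero_add, one_mul]
  refine riemannZeta_ne_zero_of_one_le_re ?_
  simp
  linarith

theorem grow {c δ : ℝ} (hc : 0 < c) (hδ : 0 < δ) (k : ℝ) : ∀ᶠ x : ℝ in atTop, k * (Real.log x) ^ 2 < c * x ^ δ := by
  have h3 := isLittleO_log_rpow_atTop (show 0 < δ / 2 by linarith)
  have h4 := h3.def (show 0 < Real.sqrt (c / (2 * (|k| + 1))) by positivity)
  filter_upwards [h4, eventually_gt_atTop 1] with x hx hx1
  have hx0 : 0 < x := by linarith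
  have hl0 : 0 < Real.log x := Real.log_pos hx1
  rw [Real.norm_eq_abs, Real.norm_eq_abs, abs_of_pos hl0, abs_of_pos (Real.rpow_pos_of_pos hx0 _)] at hx
  have h5 := pow_le_pow_left₀ hl0.le hx 2
  have h61 : (x ^ (δ / 2)) ^ 2 = x ^ δ := by
    rw [sq, ← Real.rpow_add hx0]
    congr 1
    ring
  rw [mul_pow, Real.sq_sqrt (by positivity), h61, div_mul_eq_mul_div, le_div_iff₀ (by positivity)] at h5
  have h7 : 0 < x ^ δ := Real.rpow_pos_of_pos hx0 _
  have h8 : 0 < c * x ^ δ := by positivity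
  have h9 : 0 < Real.log x ^ 2 := by positivity
  have h10 := le_abs_self k
  have h11 : k * Real.log x ^ 2 ≤ (|k| + 1) * Real.log x ^ 2 := mul_le_mul_of_nonneg_right (by linarith) h9.le
  linarith

/-- one-sided smallness on sparse windows, in either form -/
def SmallOften (s : ℝ) : Prop :=
  (∀ ε : ℝ, 0 < ε → ∃ᶠ x : ℝ in atTop, ∀ y ∈ Set.Icc x (x * Real.log x), s * U y ≤ ε * (Real.sqrt y * Real.log y)) ∨
  (∀ ε : ℝ, 0 < ε → ∃ᶠ x : ℝ in atTop, meanSq U s x ≤ ε * Real.log x ^ 2)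

theorem meanU (s x : ℝ) (hx : Real.exp 1 ≤ x) :
    ∫ y in x..(x * Real.log x), (max (s * TH299.LV.SS 0 1 y) 0 / y) ^ 2 = meanSq U s x := by
  rw [meanSq_eq 0 1 s x hx]
  unfold meanSq
  refine intervalIntegral.integral_congr fun y _ => ?_
  simp

theorem SU_eq (y : ℝ) (hy : 1 ≤ y) : TH299.LV.SS 0 1 y = U y := by
  rw [SS_eq 0 1 y hy]
  ring

theorem re_le (s : ℝ) (hs : s = 1 ∨ s = -1) (h : SmallOften s) (ρ : ℂ) (hz : riemannZeta ρ = 0) (h1 : ρ.re < 1) :
    ρ.re ≤ 1 / 2 := by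
  by_contra hcon
  push Not at hcon
  rcases h with h | h
  · obtain ⟨c, hc, hev⟩ := TH299.LV.signsC 0 1 ρ hz hcon.le h1 (ne_of_re hcon.le)
    have hg := grow hc (show 0 < ρ.re - 1 / 2 by linarith) 1
    obtain ⟨X0, hX0⟩ := eventually_atTop.1 hg
    obtain ⟨x, hx1, hx2, hx3, hx4⟩ := ((h 1 one_pos).and_eventually (hev.and
      ((eventually_ge_atTop X0).and (eventually_ge_atTop (Real.exp 1))))).exists
    obtain ⟨y, hy, hy2⟩ := hx2 s hs
    have hx0 : 0 < x := (Real.exp_pos 1).trans_le hx4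
    have hl1 : 1 ≤ Real.log x := by rwa [Real.le_log_iff_exp_le hx0]
    have hy0 : 0 < y := hx0.trans_le hy.1
    have hly : 1 ≤ Real.log y := hl1.trans (Real.log_le_log hx0 hy.1)
    have hx11 : 1 ≤ x := (by
      have := Real.add_one_le_exp (1:ℝ)
      linarith)
    rw [SU_eq y (hx11.trans hy.1)] at hy2
    have h3 := hx1 y hy
    have h4 := hX0 y (hx3.trans hy.1)
    have h5 : y ^ ρ.re = Real.sqrt y * y ^ (ρ.re - 1 / 2) := by
      rw [Real.sqrt_eq_rpow, ← Real.rpow_add hy0]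
      congr 1
      ring
    have h6 : 0 < Real.sqrt y := Real.sqrt_pos.2 hy0
    have h7 : Real.log y ≤ 1 * Real.log y ^ 2 := by nlinarith
    have h8 : Real.sqrt y * Real.log y < Real.sqrt y * (c * y ^ (ρ.re - 1 / 2)) :=
      mul_lt_mul_of_pos_left (by linarith) h6
    have h9 : c * y ^ ρ.re = Real.sqrt y * (c * y ^ (ρ.re - 1 / 2)) := by rw [h5]; ring
    linarith
  · obtain ⟨c, hc, hev⟩ := TH299.LV.sqC1 0 1 ρ hz hcon.le h1 (ne_of_re hcon.le)
    have hg := grow hc (show 0 < 2 * ρ.re - 1 by linarith) 1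
    obtain ⟨x, hx1, hx2, hx3, hx4⟩ := ((h 1 one_pos).and_eventually (hev.and
      (hg.and (eventually_ge_atTop (Real.exp 1))))).exists
    have h3 := hx2 s hs
    rw [meanU s x hx4] at h3
    linarith

theorem rh_simple (s : ℝ) (hs : s = 1 ∨ s = -1) (h : SmallOften s) (ρ : ℂ) (hz : riemannZeta ρ = 0)
    (h0 : 0 < ρ.re) (h1 : ρ.re < 1) : ρ.re = 1 / 2 ∧ deriv riemannZeta ρ ≠ 0 := by
  have hle := re_le s hs h ρ hz h1
  have hge := re_le s hs h (1 - ρ) (H313.TK.refl_zero ρ hz h0 h1) (by simp; linarith)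
  have hre : ρ.re = 1 / 2 := by
    simp at hge
    linarith
  refine ⟨hre, fun hz' => ?_⟩
  rcases h with h | h
  · obtain ⟨c, hc, hev⟩ := TH299.LV.signsC2 0 1 ρ hz hz' hre.ge h1 (ne_of_re hre.ge)
    obtain ⟨x, hx1, hx2, hx4⟩ := ((h (c / 2) (by positivity)).and_eventually (hev.and
      (eventually_ge_atTop (Real.exp 1)))).exists
    obtain ⟨y, hy, hy2⟩ := hx2 s hs
    have hx0 : 0 < x := (Real.exp_pos 1).trans_le hx4
    have hl1 : 1 ≤ Real.log x := by rwa [Real.le_log_iff_exp_le hx0]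
    have hy0 : 0 < y := hx0.trans_le hy.1
    have hly : 1 ≤ Real.log y := hl1.trans (Real.log_le_log hx0 hy.1)
    have hx11 : 1 ≤ x := (by
      have := Real.add_one_le_exp (1:ℝ)
      linarith)
    rw [SU_eq y (hx11.trans hy.1), hre, ← Real.sqrt_eq_rpow] at hy2
    have h3 := hx1 y hy
    have h6 : 0 < Real.sqrt y := Real.sqrt_pos.2 hy0
    have h7 : 0 < c * (Real.sqrt y * Real.log y) := by positivity
    have h8 : c / 2 * (Real.sqrt y * Real.log y) = (c * (Real.sqrt y * Real.log y)) / 2 := by ring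
    linarith
  · obtain ⟨c, hc, hev⟩ := TH299.LV.sqC2 0 1 ρ hz hz' hre.ge h1 (ne_of_re hre.ge)
    obtain ⟨x, hx1, hx2, hx4⟩ := ((h (c / 2) (by positivity)).and_eventually (hev.and
      (eventually_ge_atTop (Real.exp 1)))).exists
    have h3 := hx2 s hs
    rw [meanU s x hx4, hre] at h3
    norm_num at h3
    have hx0 : 0 < x := (Real.exp_pos 1).trans_le hx4
    have hl1 : 1 ≤ Real.log x := by rwa [Real.le_log_iff_exp_le hx0]
    have h7 : 0 < c * Real.log x ^ 2 := by positivity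
    linarith

/-- the windows statement at a zero, for the combination `a M + b U` -/
def Windows (a b : ℝ) (ρ : ℂ) : Prop :=
  (∃ c : ℝ, 0 < c ∧ ∀ᶠ x : ℝ in atTop, ∀ s : ℝ, s = 1 ∨ s = -1 →
    (∃ y ∈ Set.Icc x (x * Real.log x), c * y ^ ρ.re ≤ s * (a * M y + b * U y)) ∧
    c * x ^ (2 * ρ.re - 1) ≤ meanSq (fun y => a * M y + b * U y) s x) ∧
  (deriv riemannZeta ρ = 0 → ∃ c : ℝ, 0 < c ∧ ∀ᶠ x : ℝ in atTop, ∀ s : ℝ, s = 1 ∨ s = -1 →
    (∃ y ∈ Set.Icc x (x * Real.log x), c * (y ^ ρ.re * Real.log y) ≤ s * (a * M y + b * U y)) ∧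
    c * (Real.log x ^ 2 * x ^ (2 * ρ.re - 1)) ≤ meanSq (fun y => a * M y + b * U y) s x)

theorem windows (a b : ℝ) (ρ : ℂ) (hz : riemannZeta ρ = 0) (h0 : 1 / 2 ≤ ρ.re) (h1 : ρ.re < 1)
    (hne : (a : ℂ) + b * riemannZeta (2 * ρ) ≠ 0) : Windows a b ρ := by
  have e1 := Real.add_one_le_exp (1:ℝ)
  constructor
  · obtain ⟨c1, hc1, h3⟩ := TH299.LV.signsC a b ρ hz h0 h1 hne
    obtain ⟨c2, hc2, h4⟩ := TH299.LV.sqC1 a b ρ hz h0 h1 hne
    refine ⟨min c1 c2, lt_min hc1 hc2, ?_⟩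
    filter_upwards [h3, h4, eventually_ge_atTop (Real.exp 1)] with x hx3 hx4 hx5 s hs
    have hx0 : 0 < x := (Real.exp_pos 1).trans_le hx5
    constructor
    · obtain ⟨y, hy, hy2⟩ := hx3 s hs
      refine ⟨y, hy, ?_⟩
      rw [SS_eq a b y (by linarith [hy.1])] at hy2
      exact (mul_le_mul_of_nonneg_right (min_le_left _ _)
        (Real.rpow_nonneg (hx0.trans_le hy.1).le _)).trans hy2
    · have h6 := hx4 s hs
      rw [meanSq_eq a b s x hx5] at h6
      exact (mul_le_mul_of_nonneg_right (min_le_right _ _) (Real.rpow_nonneg hx0.le _)).trans h6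
  · intro hz'
    obtain ⟨c1, hc1, h3⟩ := TH299.LV.signsC2 a b ρ hz hz' h0 h1 hne
    obtain ⟨c2, hc2, h4⟩ := TH299.LV.sqC2 a b ρ hz hz' h0 h1 hne
    refine ⟨min c1 c2, lt_min hc1 hc2, ?_⟩
    filter_upwards [h3, h4, eventually_ge_atTop (Real.exp 1)] with x hx3 hx4 hx5 s hs
    have hx0 : 0 < x := (Real.exp_pos 1).trans_le hx5
    have hl1 : 1 ≤ Real.log x := by rwa [Real.le_log_iff_exp_le hx0]
    constructor
    · obtain ⟨y, hy, hy2⟩ := hx3 s hs
      refine ⟨y, hy, ?_⟩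
      rw [SS_eq a b y (by linarith [hy.1])] at hy2
      have hly : 0 ≤ Real.log y := Real.log_nonneg (by linarith [hy.1])
      exact (mul_le_mul_of_nonneg_right (min_le_left _ _)
        (mul_nonneg (Real.rpow_nonneg (hx0.trans_le hy.1).le _) hly)).trans hy2
    · have h6 := hx4 s hs
      rw [meanSq_eq a b s x hx5] at h6
      exact (mul_le_mul_of_nonneg_right (min_le_right _ _)
        (mul_nonneg (sq_nonneg _) (Real.rpow_nonneg hx0.le _))).trans h6

/-- **Main theorem.** (1) Windows for the combinations `a M + b U`; (2) unconditionally for `U`;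
(3) one-sided smallness of `U` on sparse windows gives the Riemann Hypothesis and simple zeros. -/
theorem result :
    (∀ (a b : ℝ) (ρ : ℂ), riemannZeta ρ = 0 → 1 / 2 ≤ ρ.re → ρ.re < 1 →
      (a : ℂ) + b * riemannZeta (2 * ρ) ≠ 0 → Windows a b ρ) ∧
    (∃ c : ℝ, 0 < c ∧ ∀ᶠ x : ℝ in atTop, ∀ s : ℝ, s = 1 ∨ s = -1 →
      (∃ y ∈ Set.Icc x (x * Real.log x), c * Real.sqrt y ≤ s * U y) ∧ c ≤ meanSq U s x) ∧
    (∀ s : ℝ, s = 1 ∨ s = -1 → SmallOften s →
      ∀ ρ : ℂ, riemannZeta ρ = 0 → 0 < ρ.re → ρ.re < 1 → ρ.re = 1 / 2 ∧ deriv riemannZeta ρ ≠ 0) := by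
  refine ⟨fun a b ρ hz h0 h1 hne => windows a b ρ hz h0 h1 hne, ?_, fun s hs h ρ hz h0 h1 => rh_simple s hs h ρ hz h0 h1⟩
  obtain ⟨ρ, hz, h0, h1⟩ := H313.TK.exists_zero
  obtain ⟨⟨c, hc, h3⟩, _⟩ := windows 0 1 ρ hz h0 h1 (ne_of_re h0)
  refine ⟨c, hc, ?_⟩
  have e1 := Real.add_one_le_exp (1:ℝ)
  filter_upwards [h3, eventually_ge_atTop (Real.exp 1)] with x hx hx5 s hs
  have hx0 : 0 < x := (Real.exp_pos 1).trans_le hx5
  obtain ⟨⟨y, hy, hy2⟩, h6⟩ := hx s hs
  constructor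
  · refine ⟨y, hy, ?_⟩
    have hy1 : 1 ≤ y := by linarith [hy.1]
    have h7 : Real.sqrt y ≤ y ^ ρ.re := by
      rw [Real.sqrt_eq_rpow]
      exact Real.rpow_le_rpow_of_exponent_le hy1 h0
    have h8 : s * (0 * M y + 1 * U y) = s * U y := by ring
    rw [h8] at hy2
    exact (mul_le_mul_of_nonneg_left h7 hc.le).trans hy2
  · have h7 : 1 ≤ x ^ (2 * ρ.re - 1) := Real.one_le_rpow (by linarith) (by linarith)
    have h8 : meanSq (fun y => 0 * M y + 1 * U y) s x = meanSq U s x := by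
      unfold meanSq
      refine intervalIntegral.integral_congr fun y _ => ?_
      simp
    rw [h8] at h6
    nlinarith

end Pool.Agent.Results.MP_a499ba_nt.LiouvilleWindows
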